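import Pool.Agent.Helper68.Fam.Goals

/-!
# Project FAM (MP_18808e_co), packet BASE2
-/

namespace NApexGraphs.Fam.Helper53

open SimpleGraph NApexGraphs NApexGraphs.Dom NApexGraphs.Fam

/-- BASE2: two parts of three points and few triples are removed from a complete graph, the rest
is not planar. -/
theorem gBASE2 : Goals.NORM2 → Goals.TWO1 → Goals.TWO2 → Goals.TWO3 → Goals.MADER →
    Goals.ECOUNT → Goals.BASE2 := by
  intro hN h1 h2 h3 hM hE V _ _ H P A B S hT
  rcases Nat.lt_or_ge 3 S.card with h4 | h4
  · obtain ⟨P', A', B', hT', hsub, hcard, -, -, -, -⟩ := hN V H P A B S hT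
    intro hPl
    have hPl' : Pl H (P' : Set V) := hPl.mono le_rfl (by exact_mod_cast hsub)
    apply hPl'.1
    apply hM V H P' (by omega)
    have e := hE V H P' (insert A' (insert B' S)) (by
      intro T hTm
      simp only [Finset.mem_insert] at hTm
      rcases hTm with rfl | rfl | h
      · exact hT'.cA
      · exact hT'.cB
      · exact hT'.cT T h) (by
      intro x hx y hy hxy hC
      exact hT'.adj x hx y hy hxy (hC A' (by simp)) (hC B' (by simp))
        (fun T hTS => hC T (by simp [hTS])))
    have c1 : (insert A' (insert B' S)).card ≤ S.card + 2 := by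
      have a1 := Finset.card_insert_le A' (insert B' S)
      have a2 := Finset.card_insert_le B' S
      omega
    rw [hcard] at e ⊢
    have e2 : S.card + 6 - 1 = S.card + 5 := by omega
    rw [e2] at e
    have e3 : (S.card + 6) * (S.card + 5) ≤ eW H P' + 6 * (S.card + 2) :=
      e.trans (Nat.add_le_add_left (Nat.mul_le_mul_left 6 c1) _)
    nlinarith [e3, h4, Nat.mul_le_mul h4 h4]
  · rcases Nat.lt_or_ge 1 S.card with h5 | h5
    · rcases Nat.lt_or_ge 2 S.card with h6 | h6
      · exact h3 V H P A B S hT (by omega)
      · exact h2 V H P A B S hT (by omega)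
    · exact h1 V H P A B S hT h5

end NApexGraphs.Fam.Helper53
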